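import Pool.Agent.helper34.XL.PPF
import Pool.Agent.helper34.XL.LP

/-!
# xl:CRT — lifting distributions by the Chinese remainder theorem
-/

set_option autoImplicit false

namespace Pool.Agent.helper34.EL

open Finset

/-- the trivial coefficient system -/
def CRT_triv (A : Type) [AddCommGroup A] : CS A where
  φ _ := AddMonoidHom.id A
  ι := AddMonoidHom.id A
  comm _ _ _ := rfl
  ιι _ := rfl
  φι _ _ := rfl

/-- the Chinese remainder isomorphism -/
noncomputable def CRT_iso (n P n' : ℕ) (hn : n = P * n') (hc : P.Coprime n') :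
    ZMod n ≃+* ZMod P × ZMod n' :=
  (ZMod.ringEquivCongr hn).trans (ZMod.chineseRemainder hc)

theorem CRT_iso_snd (n P n' : ℕ) (hn : n = P * n') (hc : P.Coprime n') (x : ZMod n) :
    (CRT_iso n P n' hn hc x).2 = (x.cast : ZMod n') := by
  have h1 : n' ∣ n := ⟨P, by rw [hn, mul_comm]⟩
  have h2 : (RingHom.snd (ZMod P) (ZMod n')).comp (CRT_iso n P n' hn hc).toRingHom =
      ZMod.castHom h1 (ZMod n') := Subsingleton.elim _ _
  have h3 := RingHom.congr_fun h2 x
  simpa using h3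

/-- extension by zero of a function on pairs -/
noncomputable def CRT_ext {A : Type} [Zero A] (n P n' : ℕ) (hn : n = P * n') (hc : P.Coprime n')
    (G : ZMod n' → (ZMod P)ˣ → A) (x : ZMod n) : A :=
  open scoped Classical in
  if h : IsUnit (CRT_iso n P n' hn hc x).1 then G (CRT_iso n P n' hn hc x).2 h.unit else 0

theorem CRT_ext_unit {A : Type} [Zero A] (n P n' : ℕ) (hn : n = P * n') (hc : P.Coprime n')
    (G : ZMod n' → (ZMod P)ˣ → A) (x : ZMod n) (b : (ZMod P)ˣ)
    (hb : (b : ZMod P) = (CRT_iso n P n' hn hc x).1) :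
    CRT_ext n P n' hn hc G x = G (CRT_iso n P n' hn hc x).2 b := by
  have h : IsUnit (CRT_iso n P n' hn hc x).1 := by rw [← hb]; exact b.isUnit
  unfold CRT_ext
  rw [dif_pos h]
  congr 1
  apply Units.ext
  rw [hb]
  rfl

theorem CRT_ext_nonunit {A : Type} [Zero A] (n P n' : ℕ) (hn : n = P * n') (hc : P.Coprime n')
    (G : ZMod n' → (ZMod P)ˣ → A) (x : ZMod n) (h : ¬ IsUnit (CRT_iso n P n' hn hc x).1) :
    CRT_ext n P n' hn hc G x = 0 := by
  unfold CRT_ext
  rw [dif_neg h]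

theorem CRT_dist {A : Type} [AddCommMonoid A] (n P n' : ℕ) [NeZero n] [NeZero n'] (hn : n = P * n')
    (hc : P.Coprime n') (G : ZMod n' → (ZMod P)ˣ → A) (q : ℕ) (hq : q ∣ n')
    (hG : ∀ x b, ∑ y ∈ univ.filter (fun y : ZMod n' => q • y = q • x), G y b =
      G (q • x) (υ P q * b)) : DistAt n q (CRT_ext n P n' hn hc G) := by
  classical
  have hqP : q.Coprime P := (Nat.Coprime.coprime_dvd_right hq hc).symm
  have hυ : ((υ P q : (ZMod P)ˣ) : ZMod P) = (q : ZMod P) := by
    unfold υ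
    rw [dif_pos hqP, ZMod.coe_unitOfCoprime]
  have hqu : IsUnit (q : ZMod P) := by rw [← hυ]; exact (υ P q).isUnit
  set c := CRT_iso n P n' hn hc with hcd
  intro x
  have hfib : ∀ y : ZMod n, (q : ZMod n) * y = q * x ↔
      (c y).1 = (c x).1 ∧ q • (c y).2 = q • (c x).2 := by
    intro y
    rw [← c.injective.eq_iff, map_mul, map_mul, map_natCast, Prod.ext_iff]
    simp only [Prod.fst_mul, Prod.snd_mul, Prod.fst_natCast, Prod.snd_natCast, nsmul_eq_mul]
    rw [hqu.mul_right_inj]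
  have hq2 : (c (q * x)).2 = q • (c x).2 := by
    rw [map_mul, map_natCast, Prod.snd_mul, Prod.snd_natCast, nsmul_eq_mul]
  have hq1 : (c (q * x)).1 = q * (c x).1 := by
    rw [map_mul, map_natCast, Prod.fst_mul, Prod.fst_natCast]
  by_cases hu : IsUnit (c x).1
  · obtain ⟨b, hb⟩ := hu
    rw [CRT_ext_unit n P n' hn hc G (q * x) (υ P q * b) (by
      rw [Units.val_mul, hυ, hb]; exact hq1.symm)]
    rw [← hcd, hq2, ← hG]
    apply Finset.sum_bij (fun y _ => (c y).2)
    · intro y hy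
      rw [mem_filter] at hy ⊢
      exact ⟨mem_univ _, ((hfib y).1 hy.2).2⟩
    · intro y hy z hz hyz
      rw [mem_filter] at hy hz
      apply c.injective
      apply Prod.ext
      · rw [((hfib y).1 hy.2).1, ((hfib z).1 hz.2).1]
      · exact hyz
    · intro w hw
      rw [mem_filter] at hw
      refine ⟨c.symm ((c x).1, w), ?_, ?_⟩
      · rw [mem_filter, hfib]
        simp only [RingEquiv.apply_symm_apply]
        exact ⟨mem_univ _, trivial, hw.2⟩
      · simp only [RingEquiv.apply_symm_apply]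
    · intro y hy
      rw [mem_filter] at hy
      exact CRT_ext_unit n P n' hn hc G y b (by rw [hb]; exact ((hfib y).1 hy.2).1.symm)
  · rw [CRT_ext_nonunit n P n' hn hc G (q * x)]
    · apply Finset.sum_eq_zero
      intro y hy
      rw [mem_filter] at hy
      apply CRT_ext_nonunit
      rw [← hcd, ((hfib y).1 hy.2).1]
      exact hu
    · rw [← hcd, hq1]
      intro h
      exact hu ((IsUnit.mul_iff.1 h).2)

theorem CRT_supp1 (n p f n' : ℕ) [NeZero n] (hp : p.Prime) (hf : 0 < f)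
    (hn : n = p ^ f * n') (hpn : ¬ p ∣ n') (hc : (p ^ f).Coprime n') (x : ZMod n) :
    ((n / p : ℕ) : ZMod n) * x = 0 ↔ ¬ IsUnit (CRT_iso n (p ^ f) n' hn hc x).1 := by
  obtain ⟨k, rfl⟩ : ∃ k, f = k + 1 := ⟨f - 1, by omega⟩
  have hdiv : n / p = p ^ k * n' := by
    rw [hn, pow_succ, mul_right_comm]
    exact Nat.mul_div_cancel _ hp.pos
  have : NeZero (p ^ (k + 1)) := ⟨pow_ne_zero _ hp.ne_zero⟩
  set c := CRT_iso n (p ^ (k + 1)) n' hn hc with hcd
  rw [← c.injective.eq_iff, map_mul, map_zero, map_natCast, Prod.ext_iff, hdiv]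
  simp only [Prod.fst_mul, Prod.snd_mul, Prod.fst_natCast, Prod.snd_natCast, Prod.fst_zero,
    Prod.snd_zero]
  have h2 : ((p ^ k * n' : ℕ) : ZMod n') = 0 := by
    rw [ZMod.natCast_eq_zero_iff]
    exact Dvd.intro_left _ rfl
  rw [h2, zero_mul]
  simp only [and_true]
  constructor
  · intro h hu
    rw [hu.mul_left_eq_zero, ZMod.natCast_eq_zero_iff, pow_succ] at h
    exact hpn (Nat.dvd_of_mul_dvd_mul_left (pow_pos hp.pos k) h)
  · intro h
    obtain ⟨w, hw⟩ : ∃ w : ℕ, (w : ZMod (p ^ (k + 1))) = (c x).1 := ⟨(c x).1.val, by simp⟩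
    rw [← hw] at h ⊢
    rw [ZMod.isUnit_iff_coprime] at h
    have h3 : p ∣ w := by
      by_contra h4
      apply h
      exact Nat.Coprime.pow_right _ ((Nat.Prime.coprime_iff_not_dvd hp).2 h4).symm
    rw [← Nat.cast_mul, ZMod.natCast_eq_zero_iff]
    obtain ⟨v, rfl⟩ := h3
    exact ⟨n' * v, by ring⟩

theorem CRT_avg {A : Type} [AddCommMonoid A] (n P n' : ℕ) [NeZero n] [NeZero n'] [NeZero P]
    (hn : n = P * n') (hc : P.Coprime n') (G : ZMod n' → (ZMod P)ˣ → A) (x : ZMod n) :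
    ∑ y ∈ univ.filter (fun y : ZMod n => (P : ZMod n) * y = (P : ZMod n) * x),
      CRT_ext n P n' hn hc G y = ∑ b, G (CRT_iso n P n' hn hc x).2 b := by
  classical
  set c := CRT_iso n P n' hn hc with hcd
  have hPu : IsUnit (P : ZMod n') := by
    rw [ZMod.isUnit_iff_coprime]; exact hc
  have hfib : ∀ y : ZMod n, (P : ZMod n) * y = P * x ↔ (c y).2 = (c x).2 := by
    intro y
    rw [← c.injective.eq_iff, map_mul, map_mul, map_natCast, Prod.ext_iff]
    simp only [Prod.fst_mul, Prod.snd_mul, Prod.fst_natCast, Prod.snd_natCast,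
      CharP.cast_eq_zero, zero_mul, true_and]
    rw [hPu.mul_right_inj]
  symm
  apply Finset.sum_of_injOn (fun b : (ZMod P)ˣ => c.symm ((b : ZMod P), (c x).2))
  · intro b _ b' _ h
    have h1 := c.symm.injective h
    exact Units.ext (Prod.ext_iff.1 h1).1
  · intro b _
    simp only [coe_filter, mem_univ, true_and, Set.mem_ofPred_eq]
    rw [hfib]
    simp only [RingEquiv.apply_symm_apply]
  · intro y hy hy'
    rw [mem_filter, hfib] at hy
    apply CRT_ext_nonunit
    rintro ⟨b, hb⟩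
    apply hy'
    simp only [coe_univ, Set.image_univ, Set.mem_range]
    refine ⟨b, ?_⟩
    rw [RingEquiv.symm_apply_eq]
    exact Prod.ext hb hy.2.symm
  · intro b _
    rw [CRT_ext_unit n P n' hn hc G _ b (by rw [← hcd]; simp only [RingEquiv.apply_symm_apply])]
    rw [← hcd]
    simp only [RingEquiv.apply_symm_apply]

theorem lift_avg (n p f n' : ℕ) [NeZero n] [NeZero n'] (hp : p.Prime) (hf : 0 < f)
    (hn : n = p ^ f * n') (hpn : ¬ p ∣ n') (e : ZMod n' → ℤ)
    (he : ∀ q : ℕ, q.Prime → q ∣ n' → DistAt n' q e) :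
    ∃ g : ZMod n → ℤ, (∀ q : ℕ, q.Prime → q ∣ n' → DistAt n q g) ∧
      (∀ x : ZMod n, ((n / p : ℕ) : ZMod n) * x = 0 → g x = 0) ∧
      ∀ x : ZMod n, ∑ y ∈ univ.filter
        (fun y : ZMod n => ((p ^ f : ℕ) : ZMod n) * y = ((p ^ f : ℕ) : ZMod n) * x), g y =
          e (x.cast : ZMod n') := by
  have hc : (p ^ f).Coprime n' := Nat.Coprime.pow_left _ ((Nat.Prime.coprime_iff_not_dvd hp).2 hpn)
  have : NeZero (p ^ f) := ⟨pow_ne_zero _ hp.ne_zero⟩
  obtain ⟨G, hG1, hG2⟩ := liftP_zmod n' ((ZMod (p ^ f))ˣ → ℤ) ℤ (FunCS (p ^ f) (CRT_triv ℤ))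
    (CRT_triv ℤ)
    { toFun := fun y => ∑ b, y b
      map_zero' := by simp
      map_add' := fun x y => by simp [Finset.sum_add_distrib] }
    (fun z => ⟨fun b => if b = 1 then z else 0, by simp⟩)
    (fun q y => by
      change ∑ b, y (υ (p ^ f) q * b) = ∑ b, y b
      exact Fintype.sum_equiv (Equiv.mulLeft (υ (p ^ f) q)) _ _ (fun b => rfl))
    e (fun q hq x => by
      have := he q hq.1 hq.2 x
      simp only [nsmul_eq_mul]
      exact this)
  refine ⟨CRT_ext n (p ^ f) n' hn hc G, fun q hq1 hq2 => ?_, fun x hx => ?_, fun x => ?_⟩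
  · apply CRT_dist n (p ^ f) n' hn hc G q hq2
    intro x b
    have h1 := congrFun (hG1 q ⟨hq1, hq2⟩ x) b
    rw [Finset.sum_apply] at h1
    exact h1
  · exact CRT_ext_nonunit _ _ _ _ _ _ _ ((CRT_supp1 n p f n' hp hf hn hpn hc x).1 hx)
  · rw [CRT_avg n (p ^ f) n' hn hc G x]
    have := hG2 (CRT_iso n (p ^ f) n' hn hc x).2
    rw [CRT_iso_snd] at this ⊢
    exact this

theorem lift_odd (n p f n' : ℕ) [NeZero n] [NeZero n'] (hp : p.Prime) (hf : 0 < f)
    (hpf : 2 < p ^ f) (hn : n = p ^ f * n') (hpn : ¬ p ∣ n') (ϑ : ZMod n → AddCircle (1 : ℚ))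
    (hodd : ∀ x, ϑ (-x) = -ϑ x) (hdist : ∀ q : ℕ, q.Prime → q ∣ n' → DistAt n q ϑ) :
    ∃ γ : ZMod n → ℚ, (∀ x, γ (-x) = -γ x) ∧ (∀ q : ℕ, q.Prime → q ∣ n' → DistAt n q γ) ∧
      (∀ x : ZMod n, ((n / p : ℕ) : ZMod n) * x = 0 → γ x = 0) ∧
      ∀ x : ZMod n, ((n / p : ℕ) : ZMod n) * x ≠ 0 → ((γ x : ℚ) : AddCircle (1 : ℚ)) = ϑ x := by
  classical
  have hc : (p ^ f).Coprime n' := Nat.Coprime.pow_left _ ((Nat.Prime.coprime_iff_not_dvd hp).2 hpn)
  have : NeZero (p ^ f) := ⟨pow_ne_zero _ hp.ne_zero⟩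
  have : Fact (2 < p ^ f) := ⟨hpf⟩
  set P := p ^ f with hP
  set c := CRT_iso n P n' hn hc with hcd
  set Θ : ZMod n' → (ZMod P)ˣ → AddCircle (1 : ℚ) := fun x b => ϑ (c.symm ((b : ZMod P), x))
    with hΘ
  have hΘd : IsDist (FunCS P (CRT_triv (AddCircle (1 : ℚ)))) {q | q.Prime ∧ q ∣ n'} Θ := by
    intro q hq x
    funext b
    rw [Finset.sum_apply]
    change ∑ y ∈ _, ϑ (c.symm ((b : ZMod P), y)) =
      ϑ (c.symm (((υ P q * b : (ZMod P)ˣ) : ZMod P), q • x))
    have hqP : q.Coprime P := (Nat.Coprime.coprime_dvd_right hq.2 hc).symm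
    have hυ : ((υ P q : (ZMod P)ˣ) : ZMod P) = (q : ZMod P) := by
      unfold υ
      rw [dif_pos hqP, ZMod.coe_unitOfCoprime]
    have hqu : IsUnit (q : ZMod P) := by rw [← hυ]; exact (υ P q).isUnit
    have h1 := hdist q hq.1 hq.2 (c.symm ((b : ZMod P), x))
    have h2 : (q : ZMod n) * c.symm ((b : ZMod P), x) =
        c.symm (((υ P q * b : (ZMod P)ˣ) : ZMod P), q • x) := by
      apply c.injective
      rw [map_mul, map_natCast]
      simp only [RingEquiv.apply_symm_apply, Units.val_mul, hυ, nsmul_eq_mul]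
      exact Prod.ext rfl rfl
    rw [← h2, ← h1]
    have hfib : ∀ y : ZMod n, (q : ZMod n) * y = q * c.symm ((b : ZMod P), x) ↔
        (c y).1 = b ∧ q • (c y).2 = q • x := by
      intro y
      rw [← c.injective.eq_iff, map_mul, map_mul, map_natCast, Prod.ext_iff]
      simp only [Prod.fst_mul, Prod.snd_mul, Prod.fst_natCast, Prod.snd_natCast, nsmul_eq_mul,
        RingEquiv.apply_symm_apply]
      rw [hqu.mul_right_inj]
    symm
    apply Finset.sum_bij (fun y _ => (c y).2)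
    · intro y hy
      rw [mem_filter] at hy ⊢
      exact ⟨mem_univ _, ((hfib y).1 hy.2).2⟩
    · intro y hy z hz hyz
      rw [mem_filter] at hy hz
      apply c.injective
      apply Prod.ext
      · rw [((hfib y).1 hy.2).1, ((hfib z).1 hz.2).1]
      · exact hyz
    · intro w hw
      rw [mem_filter] at hw
      refine ⟨c.symm ((b : ZMod P), w), ?_, ?_⟩
      · rw [mem_filter, hfib]
        simp only [RingEquiv.apply_symm_apply]
        exact ⟨mem_univ _, trivial, hw.2⟩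
      · simp only [RingEquiv.apply_symm_apply]
    · intro y hy
      rw [mem_filter] at hy
      congr 1
      rw [RingEquiv.eq_symm_apply]
      exact Prod.ext ((hfib y).1 hy.2).1 rfl
  obtain ⟨G, hG1, hG2⟩ := liftP_zmod n' ((ZMod P)ˣ → ℚ) ((ZMod P)ˣ → AddCircle (1 : ℚ))
    (FunCS P (CRT_triv ℚ)) (FunCS P (CRT_triv (AddCircle (1 : ℚ))))
    { toFun := fun y b => ((y b : ℚ) : AddCircle (1 : ℚ))
      map_zero' := by funext b; simp
      map_add' := fun x y => by funext b; simp }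
    (fun z => ⟨fun b => (z b).out, by
      funext b
      exact QuotientAddGroup.out_eq' (z b)⟩)
    (fun q y => rfl) Θ hΘd
  have hG3 : ∀ x b, ((G x b : ℚ) : AddCircle (1 : ℚ)) = Θ x b := fun x b => congrFun (hG2 x) b
  have hint : ∀ x b, ∃ z : ℤ, (z : ℚ) = G x b + G (-x) (-b) := by
    intro x b
    have h1 : ((G x b + G (-x) (-b) : ℚ) : AddCircle (1 : ℚ)) = 0 := by
      rw [AddCircle.coe_add, hG3, hG3]
      change ϑ (c.symm ((b : ZMod P), x)) + ϑ (c.symm (((-b : (ZMod P)ˣ) : ZMod P), -x)) = 0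
      have h2 : c.symm (((-b : (ZMod P)ˣ) : ZMod P), -x) = -c.symm ((b : ZMod P), x) := by
        rw [← map_neg]
        rfl
      rw [h2, hodd, add_neg_cancel]
    rw [AddCircle.coe_eq_zero_iff] at h1
    obtain ⟨z, hz⟩ := h1
    exact ⟨z, by rw [← hz]; simp⟩
  choose E hE using hint
  have hEd : IsDist (FunCS P (CRT_triv ℤ)) {q | q.Prime ∧ q ∣ n'} E := by
    intro q hq x
    funext b
    rw [Finset.sum_apply]
    change ∑ y ∈ _, E y b = E (q • x) (υ P q * b)
    have h0 : ((∑ y ∈ univ.filter (fun y : ZMod n' => q • y = q • x), E y b : ℤ) : ℚ) =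
        ((E (q • x) (υ P q * b) : ℤ) : ℚ) := by
      rw [hE]
      push_cast
      simp_rw [hE]
      rw [Finset.sum_add_distrib]
      have h1 := congrFun (hG1 q hq x) b
      rw [Finset.sum_apply] at h1
      have h2 := congrFun (hG1 q hq (-x)) (-b)
      rw [Finset.sum_apply] at h2
      have h3 : ∑ y ∈ univ.filter (fun y : ZMod n' => q • y = q • x), G (-y) (-b) =
          ∑ y ∈ univ.filter (fun y : ZMod n' => q • y = q • (-x)), G y (-b) := by
        apply Finset.sum_bij (fun y _ => -y)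
        · intro y hy
          rw [mem_filter] at hy ⊢
          refine ⟨mem_univ _, ?_⟩
          rw [smul_neg, smul_neg, hy.2]
        · intro y _ z _ hyz
          exact neg_injective hyz
        · intro w hw
          rw [mem_filter] at hw
          refine ⟨-w, ?_, neg_neg w⟩
          rw [mem_filter]
          refine ⟨mem_univ _, ?_⟩
          rw [smul_neg, hw.2, smul_neg, neg_neg]
        · intro y _
          rfl
      rw [h3, h1, h2]
      change G (q • x) (υ P q * b) + G (q • -x) (υ P q * -b) = _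
      rw [smul_neg, mul_neg]
    exact_mod_cast h0
  have hEi : ∀ x, (FunCS P (CRT_triv ℤ)).ι (E (-x)) = E x := by
    intro x
    funext b
    change E (-x) (-b) = E x b
    have h0 : ((E (-x) (-b) : ℤ) : ℚ) = ((E x b : ℤ) : ℚ) := by
      rw [hE, hE, neg_neg, neg_neg, add_comm]
    exact_mod_cast h0
  have hfree : ∀ b : (ZMod P)ˣ, -b ≠ b := by
    intro b hb
    have h1 : -(b : ZMod P) = b := by
      have := congrArg (fun u : (ZMod P)ˣ => (u : ZMod P)) hb
      simpa using this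
    have h2 : -(1 : ZMod P) = 1 := by
      have h3 : -(b : ZMod P) * ((b⁻¹ : (ZMod P)ˣ) : ZMod P) = b * ((b⁻¹ : (ZMod P)ˣ) : ZMod P) := by
        rw [h1]
      rw [neg_mul, Units.mul_inv] at h3
      exact h3
    exact ZMod.neg_one_ne_one h2
  obtain ⟨z, hz1, hz2⟩ := parP_zmod n' ((ZMod P)ˣ → ℤ) (FunCS P (CRT_triv ℤ))
    (PP_fun_free P (CRT_triv ℤ) hfree) E hEd hEi
  have hz3 : ∀ x b, E x b = z x b + z (-x) (-b) := fun x b => congrFun (hz2 x) b
  refine ⟨CRT_ext n P n' hn hc (fun x b => G x b - z x b), fun x => ?_, fun q hq1 hq2 => ?_,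
    fun x hx => ?_, fun x hx => ?_⟩
  · by_cases hu : IsUnit (c x).1
    · obtain ⟨b, hb⟩ := hu
      rw [CRT_ext_unit n P n' hn hc _ x b hb, CRT_ext_unit n P n' hn hc _ (-x) (-b) (by
        rw [map_neg, Prod.fst_neg, ← hcd, ← hb]; rfl)]
      rw [← hcd, map_neg, Prod.snd_neg]
      have h1 := hE (c x).2 b
      have h2 := hz3 (c x).2 b
      rw [h2] at h1
      push_cast at h1
      linarith
    · rw [CRT_ext_nonunit n P n' hn hc _ x hu, CRT_ext_nonunit n P n' hn hc _ (-x), neg_zero]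
      rw [map_neg, Prod.fst_neg]
      intro h
      exact hu ((IsUnit.neg_iff _).1 h)
  · apply CRT_dist n P n' hn hc _ q hq2
    intro x b
    have h1 := congrFun (hG1 q ⟨hq1, hq2⟩ x) b
    rw [Finset.sum_apply] at h1
    have h2 := congrFun (hz1 q ⟨hq1, hq2⟩ x) b
    rw [Finset.sum_apply] at h2
    rw [Finset.sum_sub_distrib, h1, ← Int.cast_sum, h2]
    rfl
  · exact CRT_ext_nonunit _ _ _ _ _ _ _ ((CRT_supp1 n p f n' hp hf hn hpn hc x).1 hx)
  · have hu : IsUnit (c x).1 := by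
      by_contra h
      exact hx ((CRT_supp1 n p f n' hp hf hn hpn hc x).2 h)
    obtain ⟨b, hb⟩ := hu
    rw [CRT_ext_unit n P n' hn hc _ x b hb, ← hcd]
    have h1 : (((G (c x).2 b - z (c x).2 b : ℚ)) : AddCircle (1 : ℚ)) = ϑ x := by
      rw [AddCircle.coe_sub, hG3]
      have h2 : (((z (c x).2 b : ℤ) : ℚ) : AddCircle (1 : ℚ)) = 0 := by
        rw [AddCircle.coe_eq_zero_iff]
        exact ⟨z (c x).2 b, by simp⟩
      rw [h2, sub_zero]
      change ϑ (c.symm ((b : ZMod P), (c x).2)) = ϑ x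
      congr 1
      rw [RingEquiv.symm_apply_eq]
      exact Prod.ext hb rfl
    exact h1

end Pool.Agent.helper34.EL
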